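import Mathlib
import Pool.Agent.TH274.Wig.Final

/-!
# The weak form of Flandrin's conjecture fails in every dimension `d ≥ 5`

For `d ≥ 5` the integral of the Wigner distribution over the compact convex set `B_R × B_R`
(`B_R` the closed Euclidean ball of radius `R` in `ℝ^d`) is not bounded by a constant times
`‖u‖²`: the best constant grows at least like `R^{d-4}`.
-/

set_option autoImplicit false

namespace Pool.Agent.Results.MP_0a9cf0_an.HighDimension

open MeasureTheory

/-- For every `d ≥ 5` there are `c > 0` and `R₀` such that for every `R ≥ R₀` some Schwartz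
function `u` on `ℝ^d` with `‖u‖² > 0` satisfies `∬_{B_R × B_R} W(u,u) ≥ c R^{d-4} ‖u‖²`. -/
theorem result (d : ℕ) (hd : 5 ≤ d) :
    ∃ c : ℝ, 0 < c ∧ ∃ R₀ : ℝ, ∀ R : ℝ, R₀ ≤ R →
      ∃ u : SchwartzMap (EuclideanSpace ℝ (Fin d)) ℂ,
        0 < (∫ x : EuclideanSpace ℝ (Fin d), ‖u x‖ ^ 2) ∧
        c * R ^ (d - 4) * (∫ x : EuclideanSpace ℝ (Fin d), ‖u x‖ ^ 2) ≤
          (∫ p in (Metric.closedBall (0 : EuclideanSpace ℝ (Fin d)) R) ×ˢ
              (Metric.closedBall (0 : EuclideanSpace ℝ (Fin d)) R),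
            ∫ y : EuclideanSpace ℝ (Fin d),
              Complex.exp (-(2 * (Real.pi : ℂ) * Complex.I * ((inner ℝ y p.2 : ℝ) : ℂ)))
                * u (p.1 + (1/2 : ℝ) • y)
                * starRingEnd ℂ (u (p.1 - (1/2 : ℝ) • y))).re :=
  Pool.Agent.TH274.Wig.main d hd

end Pool.Agent.Results.MP_0a9cf0_an.HighDimension
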